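import Pool.Agent.helper11.OFP.Spec

set_option autoImplicit false

open MeasureTheory

namespace Pool.Agent.OFP

open Pool.Agent.LOF

theorem LXO_irr (x : ℕ → ℝ) (s : ℕ → Bool) (g : F) : ¬ LexLt x s g g := by
  rintro ⟨n, -, (h | h)⟩
  · exact lt_irrefl _ h.2
  · exact lt_irrefl _ h.2

theorem LXO_trans (x : ℕ → ℝ) (s : ℕ → Bool) (f g h : F) (h1 : LexLt x s f g)
    (h2 : LexLt x s g h) : LexLt x s f h := by
  obtain ⟨n, hn, hn'⟩ := h1
  obtain ⟨m, hm, hm'⟩ := h2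
  rcases lt_trichotomy n m with h | h | h
  · refine ⟨n, fun i hi => (hn i hi).trans (hm i (hi.trans h)), ?_⟩
    have e := hm n h
    rcases hn' with h3 | h3
    · exact Or.inl ⟨h3.1, e ▸ h3.2⟩
    · exact Or.inr ⟨h3.1, e ▸ h3.2⟩
  · subst h
    refine ⟨n, fun i hi => (hn i hi).trans (hm i hi), ?_⟩
    rcases hn' with h3 | h3 <;> rcases hm' with h4 | h4
    · exact Or.inl ⟨h3.1, h3.2.trans h4.2⟩
    · exact absurd (h3.1.symm.trans h4.1) (by decide)
    · exact absurd (h3.1.symm.trans h4.1) (by decide)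
    · exact Or.inr ⟨h3.1, h4.2.trans h3.2⟩
  · refine ⟨m, fun i hi => (hn i (hi.trans h)).trans (hm i hi), ?_⟩
    have e := hn m h
    rcases hm' with h3 | h3
    · exact Or.inl ⟨h3.1, e.symm ▸ h3.2⟩
    · exact Or.inr ⟨h3.1, e.symm ▸ h3.2⟩

theorem LXO_total (x : ℕ → ℝ) (s : ℕ → Bool) (hx : DenseSeq x) (g h : F) (hgh : g ≠ h) :
    LexLt x s g h ∨ LexLt x s h g := by
  classical
  have h1 : ∃ n, g.1 (x n) ≠ h.1 (x n) := by
    by_contra hne
    push Not at hne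
    apply hgh
    apply Subtype.ext
    ext t
    by_cases ht : t ∈ Set.Ioo (0 : ℝ) 1
    · by_contra hc
      have hcont : Continuous fun z : ℝ => g.1 z - h.1 z :=
        g.1.continuous.sub h.1.continuous
      have hopen : IsOpen {z : ℝ | g.1 z - h.1 z ≠ 0} := isOpen_ne.preimage hcont
      have ht' : t ∈ {z : ℝ | g.1 z - h.1 z ≠ 0} ∩ Set.Ioo (0 : ℝ) 1 := ⟨sub_ne_zero.2 hc, ht⟩
      obtain ⟨e, he, hball⟩ := Metric.isOpen_iff.1 (hopen.inter isOpen_Ioo) t ht'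
      obtain ⟨n, hn1, hn2⟩ := hx.2.2 (max 0 (t - e / 2)) (min 1 (t + e / 2)) (le_max_left _ _)
        (by
          rw [lt_min_iff, max_lt_iff, max_lt_iff]
          exact ⟨⟨one_pos, by linarith [ht.2]⟩, by linarith [ht.1], by linarith⟩)
        (min_le_left _ _)
      have h3 : t - e / 2 < x n := (le_max_right _ _).trans_lt hn1
      have h4 : x n < t + e / 2 := hn2.trans_le (min_le_right _ _)
      have h5 := hball (show x n ∈ Metric.ball t e by
        rw [Metric.mem_ball, Real.dist_eq, abs_lt]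
        constructor <;> linarith)
      exact h5.1 (sub_eq_zero.2 (hne n))
    · rw [F.out g.2 ht, F.out h.2 ht]
  have hn := Nat.find_spec h1
  have hlt : ∀ i < Nat.find h1, g.1 (x i) = h.1 (x i) := fun i hi =>
    not_not.1 (Nat.find_min h1 hi)
  rcases lt_or_gt_of_ne hn with h2 | h2
  · cases hs : s (Nat.find h1)
    · exact Or.inr ⟨Nat.find h1, fun i hi => (hlt i hi).symm, Or.inr ⟨hs, h2⟩⟩
    · exact Or.inl ⟨Nat.find h1, hlt, Or.inl ⟨hs, h2⟩⟩
  · cases hs : s (Nat.find h1)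
    · exact Or.inl ⟨Nat.find h1, hlt, Or.inr ⟨hs, h2⟩⟩
    · exact Or.inr ⟨Nat.find h1, fun i hi => (hlt i hi).symm, Or.inl ⟨hs, h2⟩⟩

theorem LXO_left (x : ℕ → ℝ) (s : ℕ → Bool) (f g h : F) (h1 : LexLt x s g h) :
    LexLt x s (f * g) (f * h) := by
  obtain ⟨n, hn, hn'⟩ := h1
  have e : ∀ (k : F) (t : ℝ), (f * k).1 t = f.1 (k.1 t) := fun k t => rfl
  refine ⟨n, fun i hi => by rw [e, e, hn i hi], ?_⟩
  rw [e, e]
  rcases hn' with h3 | h3
  · exact Or.inl ⟨h3.1, f.1.strictMono h3.2⟩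
  · exact Or.inr ⟨h3.1, f.1.strictMono h3.2⟩

theorem LXO : LXO_stmt := by
  classical
  intro x s hx
  refine ⟨⟨fun p => decide (LexLt x s p.1 p.2), fun g => ?_, fun f g h h1 h2 => ?_,
    fun g h hgh => ?_, fun f g h h1 => ?_⟩, fun g h => ?_⟩
  · rw [decide_eq_false_iff_not]
    exact LXO_irr x s g
  · rw [decide_eq_true_eq] at h1 h2 ⊢
    exact LXO_trans x s f g h h1 h2
  · rw [decide_eq_true_eq, decide_eq_true_eq]
    exact LXO_total x s hx g h hgh
  · rw [decide_eq_true_eq] at h1 ⊢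
    exact LXO_left x s f g h h1
  · show decide _ = true ↔ _
    rw [decide_eq_true_eq]

end Pool.Agent.OFP
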